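import Pool.Agent.Q267.CDE.Qx4

set_option autoImplicit false

/-!
# The exact expansion of `∑ C(-1/4,k)² v^k` at a point `v = -(1-ζ)²/(4ζ)`
-/

namespace Pool.Agent.Q267.W64

open Finset Polynomial Pool.Agent.Q267 Pool.Agent.Q267.Seven Pool.Agent.Q267.CDE Pool.Agent.Q261.SC
  Q278.PI Pool.Agent.Q267.S16 Pool.Agent.Q267.CDE.Qx

/-- the exact expansion over `ℂ`, at a nonzero point -/
theorem exC (n : ℕ) (r : ℂ) (hr : r ≠ 0) :
    ∑ k ∈ range (n + 1), CDE.cs ℂ n k * ((-(1 - r) ^ 2) ^ k * (4 * r) ^ (n - k)) =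
      4 ^ n * ∑ k ∈ range (2 * n + 1), ((u k : ℂ) * (u (2 * n - k) : ℂ)) * r ^ k := by
  obtain ⟨z, hz⟩ : ∃ z : ℂ, z ^ 2 = r := IsAlgClosed.exists_pow_nat_eq r two_pos
  have hz0 : z ≠ 0 := by
    intro h
    rw [h] at hz
    exact hr (by rw [← hz]; norm_num)
  have hzz : z * z⁻¹ = 1 := mul_inv_cancel₀ hz0
  set x : ℂ := (1 - (z + z⁻¹) / 2) / 2 with hx
  have hx1 : 1 - 2 * x = (z + z⁻¹) / 2 := by rw [hx]; ring
  have f1 := Fl_trig (2 * n) x z z⁻¹ hzz hx1
  rw [Wt_range, quad] at f1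
  have h4r : (4 * r) ≠ 0 := mul_ne_zero (by norm_num) hr
  have hxx : 4 * r * (4 * (x * (1 - x))) = -(1 - r) ^ 2 := by
    rw [hx, ← hz]
    field_simp
    ring
  have e1 : ∑ k ∈ range (n + 1), CDE.cs ℂ n k * ((-(1 - r) ^ 2) ^ k * (4 * r) ^ (n - k)) =
      (4 * r) ^ n * ∑ k ∈ range (n + 1), CDE.cs ℂ n k * (4 * (x * (1 - x))) ^ k := by
    rw [mul_sum]
    refine sum_congr rfl fun k hk => ?_
    have hk' : k ≤ n := by simpa [Nat.lt_succ_iff] using hk
    have e2 : (4 * r) ^ n = (4 * r) ^ k * (4 * r) ^ (n - k) := by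
      rw [← pow_add]; congr 1; omega
    rw [← hxx, mul_pow, e2]
    ring
  rw [e1, f1, mul_sum, mul_sum]
  refine sum_congr rfl fun k hk => ?_
  have hk' : k ≤ 2 * n := by simpa [Nat.lt_succ_iff] using hk
  have e3 : r ^ n * (z ^ k * z⁻¹ ^ (2 * n - k)) = r ^ k := by
    have e4 : r ^ n = z ^ (2 * n - k) * z ^ k := by
      rw [← hz, ← pow_mul, ← pow_add]; congr 1; omega
    have e5 : z ^ (2 * n - k) * z⁻¹ ^ (2 * n - k) = 1 := by rw [← mul_pow, hzz, one_pow]
    have e6 : r ^ k = z ^ k * z ^ k := by rw [← hz, ← pow_mul, ← pow_add]; congr 1; omega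
    rw [e4, e6]
    linear_combination (z ^ k * z ^ k) * e5
  rw [mul_pow]
  linear_combination (4 ^ n * ((u k : ℂ) * (u (2 * n - k) : ℂ))) * e3

/-- `C(2k,k)/4^k` in `ℤ_(p)` -/
noncomputable def uO (p : ℕ) [hp : Fact p.Prime] (k : ℕ) : O p :=
  (k.centralBinom : O p) * (invI p 4) ^ k

section

variable (p : ℕ) [hp : Fact p.Prime]

theorem uO_coe (h4 : ¬ (p : ℤ) ∣ 4) (k : ℕ) : ((uO p k : O p) : ℚ) = u k := by
  unfold uO S16.u
  push_cast
  rw [invI_coe p 4 h4, div_eq_mul_inv, ← inv_pow]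
  push_cast
  rfl

/-- the exact expansion over `ℤ_(p)` -/
theorem exO (n : ℕ) (h2 : ¬ (p : ℤ) ∣ 2) (h4 : ¬ (p : ℤ) ∣ 4) (hnp : n < p) :
    (∑ k ∈ range (n + 1), C (cO p n k) * ((-(1 - X) ^ 2) ^ k * (4 * X) ^ (n - k)) : (O p)[X]) =
      4 ^ n * ∑ k ∈ range (2 * n + 1), C (uO p k * uO p (2 * n - k)) * X ^ k := by
  apply Polynomial.map_injective (O p).subtype Subtype.val_injective
  apply Polynomial.map_injective (algebraMap ℚ ℂ) (algebraMap ℚ ℂ).injective
  apply mul_left_cancel₀ (X_ne_zero (R := ℂ))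
  apply Polynomial.funext
  intro r
  simp only [Polynomial.map_sum, Polynomial.map_mul, Polynomial.map_pow, Polynomial.map_C,
    Polynomial.map_X, Polynomial.map_sub, Polynomial.map_one, Polynomial.map_ofNat,
    Polynomial.map_neg, eval_neg,
    eval_finsetSum, eval_mul, eval_C, eval_pow, eval_X, eval_sub, eval_one, eval_ofNat]
  by_cases hr : r = 0
  · rw [hr, zero_mul, zero_mul]
  · congr 1
    have h := exC n r hr
    have e1 : ∀ k ∈ range (n + 1), (algebraMap ℚ ℂ) ((O p).subtype (cO p n k)) = CDE.cs ℂ n k := by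
      intro k hk
      have : (O p).subtype (cO p n k) = CDE.cs ℚ n k :=
        cO_coe p h2 n k (by have := mem_range.1 hk; omega)
      rw [this]
      unfold CDE.cs
      simp only [map_div₀, map_prod, map_neg, map_mul, map_sub, map_add, map_natCast, map_pow,
        map_one, map_ofNat]
    have e2 : ∀ k, (algebraMap ℚ ℂ) ((O p).subtype (uO p k * uO p (2 * n - k))) =
        (u k : ℂ) * (u (2 * n - k) : ℂ) := by
      intro k
      have : (O p).subtype (uO p k * uO p (2 * n - k)) = u k * u (2 * n - k) := by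
        rw [map_mul]
        have a1 : (O p).subtype (uO p k) = u k := uO_coe p h4 k
        have a2 : (O p).subtype (uO p (2 * n - k)) = u (2 * n - k) := uO_coe p h4 _
        rw [a1, a2]
      rw [this, map_mul]
      rfl
    rw [sum_congr rfl fun k hk => by rw [e1 k hk], h]
    congr 1
    exact sum_congr rfl fun k _ => by rw [e2 k]

/-- the expansion of the sum over `ℤ/p²` -/
theorem exR (e n : ℕ) (hn : e * p = 4 * n + 1) (h2 : ¬ (p : ℤ) ∣ 2) (h4 : ¬ (p : ℤ) ∣ 4)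
    (hnp : n < p) (z v : R p) (hv : 4 * z * v = -(1 - z) ^ 2) :
    z ^ n * ∑ k ∈ range p, res2 p (gO p k) ^ 2 * v ^ k =
      ∑ k ∈ range (2 * n + 1), (uR p (res2 p (invI p 4)) k * uR p (res2 p (invI p 4)) (2 * n - k)) *
        z ^ k := by
  have h := congrArg (eval₂ (res2 p) z) (exO p n h2 h4 hnp)
  simp only [eval₂_finsetSum, eval₂_mul, eval₂_C, eval₂_pow, eval₂_X, eval₂_sub, eval₂_one,
    eval₂_ofNat, eval₂_neg, map_mul] at h
  have hu4 : IsUnit ((4 : R p) ^ n) := by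
    have hJ := res2_invI p 4 h4
    push_cast at hJ
    exact (IsUnit.of_mul_eq_one _ hJ).pow n
  apply hu4.mul_left_cancel
  have e1 : ∑ k ∈ range p, res2 p (gO p k) ^ 2 * v ^ k =
      ∑ k ∈ range (n + 1), res2 p (cO p n k) * v ^ k := by
    rw [sum_to_n p n hnp]
    · refine sum_congr rfl fun k hk => ?_
      rw [g_eq_c p e n hn h2 h4]
    · intro k hk hkp
      rw [g_eq_c p e n hn h2 h4]
      have : cO p n k = 0 := by
        apply Subtype.ext
        rw [cO_coe p h2 n k hkp, cs_zero_of n k hk]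
        rfl
      rw [this, map_zero, zero_mul]
  have e2 : (4 : R p) ^ n * (z ^ n * ∑ k ∈ range p, res2 p (gO p k) ^ 2 * v ^ k) =
      ∑ k ∈ range (n + 1), res2 p (cO p n k) * ((-(1 - z) ^ 2) ^ k * (4 * z) ^ (n - k)) := by
    rw [e1, ← mul_assoc, ← mul_pow, mul_sum]
    refine sum_congr rfl fun k hk => ?_
    have hk' : k ≤ n := by simpa [Nat.lt_succ_iff] using hk
    have e3 : (4 * z) ^ n = (4 * z) ^ k * (4 * z) ^ (n - k) := by
      rw [← pow_add]; congr 1; omega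
    rw [← hv, mul_pow (4 * z) v, e3]
    ring
  rw [e2, h]
  congr 1
  refine sum_congr rfl fun k _ => ?_
  unfold uO uR
  simp only [map_mul, map_pow, map_natCast]

end

end Pool.Agent.Q267.W64
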