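import Pool.Agent.Q267.W64.Val
import Pool.Agent.Q267.MW.Sgn7

set_option autoImplicit false

/-!
# The Legendre polynomial at the point of discriminant `-7`, with its sign
-/

namespace Pool.Agent.Q267.W64

open Finset Polynomial Pool.Agent.Q267 Pool.Agent.Q267.Seven Pool.Agent.Q267.CDE Pool.Agent.Q261.SC
  Q278.PI Pool.Agent.Q267.S16 Pool.Agent.Q267.CDE.Qx Pool.Agent.Q267.MW

/-- the value from the key relation -/
theorem F_of_key (p : ℕ) [hp : Fact p.Prime] (F b B : R p) (h : b * F = F ^ 2 + p)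
    (hb : CDE.red p b = CDE.red p F) (hB : b * B = 1) : F = b - p * B := by
  have hpp := CDE.p_sq p
  obtain ⟨z, hz⟩ := CDE.red_eq_of p F b hb.symm
  rw [hz] at h ⊢
  linear_combination (-B) * h - (B * z ^ 2) * hpp - (p * z) * hB

/-- **The value at the point of discriminant `-7`.** -/
theorem Fval (p m : ℕ) [hp : Fact p.Prime] (hpm : p = 2 * m + 1) (h3 : 3 < p) (h7 : p ≠ 7)
    (x y : ℤ) (hxy : (p : ℤ) = x ^ 2 + 7 * y ^ 2) (X : R p) (hX : 2 * (x : R p) * X = 1) :
    ∃ (a η : ℤ) (w : R p), (a : R p) ^ 2 - (a : R p) + 2 = 0 ∧ (η = 1 ∨ η = -1) ∧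
      (4 : ℤ) ∣ (x - y) - η ∧
      (x : R p) + y * (2 * (a : R p) - 1) = p * w ∧
      Fl m ((a : R p) ^ 4) = (-1) ^ m * (η : R p) * (2 * (x : R p) - p * X) := by
  have hm : 0 < m := by omega
  have hpp := Nat.prime_iff_prime_int.mp hp.out
  have h2 : (2 : ZMod p) ≠ 0 := by
    have := CDE.cast_ne p 2 (by norm_num) (by omega)
    exact_mod_cast this
  have h7' : (7 : ZMod p) ≠ 0 := by
    intro h
    have : ((7 : ℕ) : ZMod p) = 0 := by exact_mod_cast h
    rw [ZMod.natCast_eq_zero_iff] at this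
    exact h7 ((Nat.prime_dvd_prime_iff_eq hp.out (by norm_num)).mp this)
  have hy0 : (y : ZMod p) ≠ 0 := by
    intro h
    have hpy : (p : ℤ) ∣ y := (ZMod.intCast_zmod_eq_zero_iff_dvd y p).mp h
    have hx2 : (p : ℤ) ∣ x ^ 2 := by
      have : x ^ 2 = p - y * (7 * y) := by rw [hxy]; ring
      rw [this]
      exact dvd_sub (dvd_refl _) (hpy.mul_right _)
    have hx : (p : ℤ) ∣ x := hpp.dvd_of_dvd_pow hx2
    have hpsq : (p : ℤ) ^ 2 ∣ p := by
      conv_rhs => rw [hxy]
      obtain ⟨u, hu⟩ := hx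
      obtain ⟨v, hv⟩ := hpy
      exact ⟨u ^ 2 + 7 * v ^ 2, by rw [hu, hv]; ring⟩
    have h1 : (p : ℤ) ∣ 1 := by
      rw [pow_two] at hpsq
      have hp0 : (p : ℤ) ≠ 0 := by exact_mod_cast hp.out.ne_zero
      exact (mul_dvd_mul_iff_left hp0).mp (by rwa [mul_one])
    exact hpp.not_isUnit (isUnit_of_dvd_one h1)
  set w : ZMod p := (1 - (x : ZMod p) / y) / 2 with hw_def
  have hxy' : (x : ZMod p) ^ 2 + 7 * y ^ 2 = 0 := by
    have := congrArg (Int.cast (R := ZMod p)) hxy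
    push_cast at this
    rw [ZMod.natCast_self] at this
    exact this.symm
  have hw : w ^ 2 - w + 2 = 0 := by
    rw [hw_def]
    field_simp
    linear_combination hxy'
  have hwy : (x : ZMod p) + y * (2 * w - 1) = 0 := by
    rw [hw_def]
    field_simp
    ring
  obtain ⟨a, haw, ha⟩ := Pool.Agent.Q267.Landen.hensel p h7 w hw
  have ha' : (a : R p) ^ 2 - (a : R p) + 2 = 0 := by
    have : (((a ^ 2 - a + 2 : ℤ)) : R p) = 0 := by
      rw [ZMod.intCast_zmod_eq_zero_iff_dvd]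
      push_cast
      exact ha
    push_cast at this
    exact this
  have hred : CDE.red p (a : R p) = w := by
    rw [map_intCast]
    exact haw
  -- the sign theorem
  obtain ⟨ε, hε, hdvd, hsum⟩ := sgn7 p (by omega) h7 (x - y) (2 * y) (by rw [hxy]; ring) w
    (by linear_combination hw) (by push_cast; linear_combination hwy)
  have hw0 : w ≠ 0 := by
    intro h
    apply h2
    rw [h] at hw
    linear_combination hw
  have hd0 : (2 * w - 1) ≠ 0 := by
    intro h
    apply h7'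
    linear_combination (-(2 * w - 1)) * h + 4 * hw
  have hua : IsUnit (a : R p) := CDE.isUnit_of_red p (by rw [hred]; exact hw0)
  have w4 : w ^ 4 = 2 - 3 * w := by linear_combination (w ^ 2 + w - 1) * hw
  have hL0 : CDE.red p ((a : R p) ^ 4) ≠ 0 := by
    rw [map_pow, hred]
    exact pow_ne_zero _ hw0
  have hL1 : CDE.red p ((a : R p) ^ 4) ≠ 1 := by
    rw [map_pow, hred, w4]
    intro h
    have : (2 : ZMod p) ^ 4 = 0 := by linear_combination 9 * hw + (3 * w - 2) * h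
    exact pow_ne_zero 4 h2 this
  have hu : CDE.red p ((a : R p) ^ (2 * (p - 1))) = 1 := by
    rw [map_pow, hred, mul_comm, pow_mul, ZMod.pow_card_sub_one_eq_one hw0, one_pow]
  have hLu : ((a : R p) ^ 4) ^ (p - 1) = ((a : R p) ^ (2 * (p - 1))) ^ 2 := by
    rw [← pow_mul, ← pow_mul]
    congr 1
    ring
  have hcan : ∑ k ∈ range (m + 1), (dl m k : R p) * ((a : R p) ^ 4) ^ (m - k) =
      (a : R p) ^ (2 * (p - 1)) * ∑ k ∈ range (m + 1), (dl m k : R p) * ((a : R p) ^ 4) ^ k := by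
    have h := split_key p m hpm (by omega) h7 a ha'
    apply (hua.pow 2).mul_left_cancel
    rw [h, ← mul_assoc, ← pow_add, show 2 + 2 * (p - 1) = 2 * p by omega]
  obtain ⟨k1, k2⟩ := leg_key p hpm hm ((a : R p) ^ 4) ((a : R p) ^ (2 * (p - 1)))
    (-((∑ x : ZMod p, quadraticChar (ZMod p) (x * (1 - x) * (1 - w ^ 4 * x)) : ℤ) : R p))
    hL0 hL1 hu hLu hcan (by
      rw [neg_neg, leg_cast p m hpm hm, map_pow, hred])
  have hleg := leg7_sum p m hpm hm w hw h7
  have hchi : quadraticChar (ZMod p) (2 * w - 1) = 1 ∨ quadraticChar (ZMod p) (2 * w - 1) = -1 :=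
    quadraticChar_dichotomy hd0
  obtain ⟨η, hηd⟩ : ∃ η : ℤ, η = ε * quadraticChar (ZMod p) (2 * w - 1) := ⟨_, rfl⟩
  have hη : η = 1 ∨ η = -1 := by
    rw [hηd]
    rcases hε with h | h <;> rcases hchi with h' | h' <;> rw [h, h'] <;> norm_num
  have hη4 : (4 : ℤ) ∣ (x - y) - η := by
    rw [hηd]
    rcases hε with h | h <;> rcases hchi with h' | h' <;> rw [h, h'] at hdvd ⊢ <;> omega
  have hE : ∑ x : ZMod p, quadraticChar (ZMod p) (x * (1 - x) * (1 - w ^ 4 * x)) =
      -(η * (2 * x)) := by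
    rw [hηd]
    rcases hchi with h' | h' <;> rw [h'] at hleg ⊢ <;> rw [hleg] at hsum <;> linarith
  obtain ⟨v, hv⟩ := CDE.red_eq_of p ((x : R p) + y * (2 * (a : R p) - 1)) 0 (by
    rw [map_add, map_mul, map_sub, map_mul, hred, map_intCast, map_intCast, map_one, map_ofNat,
      map_zero]
    exact hwy)
  refine ⟨a, η, v, ha', hη, hη4, by rw [hv, zero_add], ?_⟩
  rw [hE] at k1 k2
  have hη2 : (η : R p) * η = 1 := by
    rcases hη with h | h <;> rw [h] <;> norm_num
  have hm1 : ((-1 : R p)) ^ m * (-1) ^ m = 1 := by rw [← mul_pow]; norm_num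
  have hfin := F_of_key p (Fl m ((a : R p) ^ 4)) ((-1) ^ m * -((-(η * (2 * x)) : ℤ) : R p))
    ((-1) ^ m * (η : R p) * X) k1 k2 (by
      push_cast
      linear_combination (η * η * (2 * (x : R p) * X)) * hm1 + (2 * (x : R p) * X) * hη2 + hX)
  rw [hfin]
  push_cast
  ring

end Pool.Agent.Q267.W64
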