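import Pool.Agent.Q267.W64.Ex
import Pool.Agent.Q267.MW.Leg7

set_option autoImplicit false

/-!
# The values of the sums with weights `64` and `1/64` through a Legendre polynomial
-/

namespace Pool.Agent.Q267.W64

open Finset Polynomial Pool.Agent.Q267 Pool.Agent.Q267.Seven Pool.Agent.Q267.CDE Pool.Agent.Q261.SC
  Q278.PI Pool.Agent.Q267.S16 Pool.Agent.Q267.CDE.Qx

section

variable (p : ℕ) [hp : Fact p.Prime] {m : ℕ}

omit hp in
theorem Fl_rev (m : ℕ) (x y : R p) (hxy : x * y = 1) :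
    ∑ k ∈ range (m + 1), (dl m k : R p) * x ^ (m - k) = x ^ m * Fl m y := by
  unfold Fl
  rw [mul_sum]
  refine sum_congr rfl fun k hk => ?_
  have hk' : k ≤ m := by simpa [Nat.lt_succ_iff] using hk
  have e1 : x ^ m = x ^ (m - k) * x ^ k := by rw [← pow_add]; congr 1; omega
  have e2 : x ^ k * y ^ k = 1 := by rw [← mul_pow, hxy, one_pow]
  rw [e1]
  linear_combination (-((dl m k : R p) * x ^ (m - k))) * e2

/-- the value at the inverse point -/
theorem Fl_inv (hpm : p = 2 * m + 1) (h3 : 3 < p) (h7 : p ≠ 7) (a : ℤ)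
    (ha : (a : R p) ^ 2 - (a : R p) + 2 = 0) (y : R p) (hy : (a : R p) ^ 4 * y = 1) :
    Fl m y = Fl m ((a : R p) ^ 4) := by
  have hu : IsUnit ((a : R p) ^ 4) := IsUnit.of_mul_eq_one _ hy
  have hua : IsUnit (a : R p) := (isUnit_pow_iff (by norm_num)).mp hu
  have h := split_key p m hpm (by omega) h7 a ha
  rw [Fl_rev p m _ y hy] at h
  apply (hu.pow m).mul_left_cancel
  apply (hua.pow 2).mul_left_cancel
  rw [h]
  unfold Fl
  have e : (a : R p) ^ (2 * p) = (a : R p) ^ 2 * ((a : R p) ^ 4) ^ m := by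
    rw [← pow_mul, ← pow_add]
    exact congrArg (fun n => (a : R p) ^ n) (by omega)
  rw [e]
  ring

/-- the sum with weight `64`, `p ≡ 3 (mod 4)` -/
theorem Fl_high (hpm : p = 2 * m + 1) (h3 : 3 < p) (L y : R p) (hy : L * y = 1)
    (hu : CDE.red p (L ^ m) = 1) (hF : Fl m y = Fl m L) :
    Fl (p + m) L = (1 - 2 * L) * Fl m L := by
  have hpp := CDE.p_sq p
  have h1 := high_sum p hpm h3 (-L)
  have h2 := inv_D p hpm h3 (-L) (-y) (by linear_combination hy)
  rw [D0_eq, neg_neg, D0_eq, neg_neg, neg_neg, hF] at h2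
  rw [D0_eq, neg_neg, (show Odd p from ⟨m, hpm⟩).neg_pow] at h1
  have e : Fl (p + m) L = ∑ k ∈ range (m + p + 1),
      ((((m + p).choose k * (m + p + k).choose k : ℕ)) : R p) * (-L) ^ k := by
    unfold Fl
    rw [show p + m = m + p by omega]
    refine sum_congr rfl fun k _ => ?_
    rw [dl_nat, neg_neg]
  rw [e, h1]
  have hLp : L ^ p = L * (L ^ m) ^ 2 := by
    rw [← pow_mul, ← pow_succ']
    exact congrArg (fun n => L ^ n) (by omega)
  obtain ⟨v, hv⟩ := CDE.red_eq_of p (L ^ m) 1 (by rw [hu, map_one])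
  rw [hLp]
  rw [hv] at h2 ⊢
  linear_combination (-(4 * L * (1 + p * v) ^ 2)) * h2 + (2 * L * Fl m L * (3 * v ^ 2 + 2 * p * v ^ 3)) * hpp

section zeta

variable (A J : R p) (hA : A ^ 2 - A + 2 = 0) (hJ : 4 * J = 1)

omit hp

/-- the point `ζ` -/
def zt (A J : R p) : R p := -(A ^ 8 * J ^ 2)

/-- the inverse of the point `ζ` -/
def zi (A J : R p) : R p := -((1 - A) ^ 8 * J ^ 2)

include hA in
theorem A4 : A ^ 4 = 2 - 3 * A := by linear_combination (A ^ 2 + A - 1) * hA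

include hA in
theorem A4' : (1 - A) ^ 4 = 1 - A ^ 4 := by
  linear_combination (2 * A ^ 2 - 2 * A) * hA

include hA in
theorem AAb : A * (1 - A) = 2 := by linear_combination -hA

include hA hJ in
theorem zt_zi : zt p A J * zi p A J = 1 := by
  unfold zt zi
  have h := AAb p A hA
  have e : -(A ^ 8 * J ^ 2) * -((1 - A) ^ 8 * J ^ 2) = (A * (1 - A)) ^ 8 * J ^ 4 := by ring
  rw [e, h]
  linear_combination (4 * J + 1) * (16 * J ^ 2 + 1) * hJ

include hA hJ in
theorem zt_refl : zt p A J = 1 - A ^ 4 * J ^ 2 := by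
  have h := AAb p A hA
  have h4 := A4' p A hA
  have e : A ^ 4 * (1 - A ^ 4) = 16 := by
    rw [← h4, ← mul_pow, h]; norm_num
  unfold zt
  linear_combination J ^ 2 * e + (4 * J + 1) * hJ

include hA hJ in
theorem zi_refl : zi p A J = 1 - (1 - A ^ 4) * J ^ 2 := by
  have h := AAb p A hA
  have h4 := A4' p A hA
  have e : A ^ 4 * (1 - A ^ 4) = 16 := by
    rw [← h4, ← mul_pow, h]; norm_num
  unfold zi
  have e2 : (1 - A) ^ 8 = (1 - A ^ 4) ^ 2 := by rw [← h4]; ring
  rw [e2]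
  linear_combination J ^ 2 * e + (4 * J + 1) * hJ

include hA hJ in
theorem zt_v : 4 * zt p A J * J ^ 3 = -(1 - zt p A J) ^ 2 := by
  have h := A4 p A hA
  unfold zt
  have e2 : A ^ 8 = -14 - 3 * A := by
    have : A ^ 8 = (A ^ 4) ^ 2 := by ring
    rw [this, h]
    linear_combination 9 * hA
  rw [e2]
  linear_combination (9 * J ^ 4) * hA + ((14 + 3 * A) * J ^ 4 + (8 * (14 + 3 * A) - 64) * J ^ 3 +
    (2 * (14 + 3 * A) - 16) * J ^ 2 - 4 * J - 1) * hJ

end zeta

/-- the values at the point `ζ` -/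
theorem zt_F (hpm : p = 2 * m + 1) (h3 : 3 < p) (h7 : p ≠ 7) (a : ℤ)
    (hA : (a : R p) ^ 2 - (a : R p) + 2 = 0) (J : R p) (hJ : 4 * J = 1) :
    Fl m (zt p (a : R p) J) = Fl m ((a : R p) ^ 4) ∧
    ∑ k ∈ range (m + 1), (dl m k : R p) * (zt p (a : R p) J) ^ (m - k) =
      (-(zt p (a : R p) J)) ^ m * Fl m ((a : R p) ^ 4) := by
  set A : R p := (a : R p) with hAd
  have hAb : ((1 - a : ℤ) : R p) = 1 - A := by push_cast; rfl
  have hA' : ((1 - a : ℤ) : R p) ^ 2 - ((1 - a : ℤ) : R p) + 2 = 0 := by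
    rw [hAb]; linear_combination hA
  have h := AAb p A hA
  have h4 := A4' p A hA
  have e : A ^ 4 * (1 - A ^ 4) = 16 := by
    rw [← h4, ← mul_pow, h]; norm_num
  have hs : ((-1 : R p)) ^ m * (-1) ^ m = 1 := by rw [← mul_pow]; norm_num
  have f1 : Fl m ((1 - A ^ 4) * J ^ 2) = Fl m (A ^ 4) :=
    Fl_inv p hpm h3 h7 a hA _ (by
      rw [← hAd]
      linear_combination J ^ 2 * e + (4 * J + 1) * hJ)
  have f2 : Fl m (A ^ 4 * J ^ 2) = (-1) ^ m * Fl m (A ^ 4) := by
    rw [← Fl_reflK, ← h4, ← hAb]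
    exact Fl_inv p hpm h3 h7 (1 - a) hA' _ (by
      rw [hAb, h4]
      linear_combination J ^ 2 * e + (4 * J + 1) * hJ)
  refine ⟨?_, ?_⟩
  · rw [zt_refl p A J hA hJ, Fl_reflK, f2, ← mul_assoc, hs, one_mul]
  · rw [Fl_rev p m _ _ (zt_zi p A J hA hJ), zi_refl p A J hA hJ, Fl_reflK, f1, ← mul_assoc]
    congr 1
    rw [neg_pow (zt p A J) m, mul_comm]

/-- the unit `α/ᾱ` -/
theorem kap (A J : R p) (hA : A ^ 2 - A + 2 = 0) (hJ : 4 * J = 1) :
    (A ^ 2 * (2 * J)) * ((1 - A) ^ 2 * (2 * J)) = 1 ∧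
    -(zt p A J) = (A ^ 2 * (2 * J)) ^ 4 ∧
    ∃ τ : R p, (A ^ 2 * (2 * J)) ^ (p - 1) = 1 + p * τ := by
  have h := AAb p A hA
  have e1 : (A ^ 2 * (2 * J)) * ((1 - A) ^ 2 * (2 * J)) = 1 := by
    have : (A ^ 2 * (2 * J)) * ((1 - A) ^ 2 * (2 * J)) = (A * (1 - A)) ^ 2 * (4 * J ^ 2) := by ring
    rw [this, h]
    linear_combination (4 * J + 1) * hJ
  refine ⟨e1, ?_, ?_⟩
  · unfold zt
    linear_combination (-(A ^ 8 * J ^ 2 * (4 * J + 1))) * hJ
  · apply CDE.red_eq_of
    rw [map_one, map_pow]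
    apply ZMod.pow_card_sub_one_eq_one
    intro h0
    have := congrArg (CDE.red p) e1
    rw [map_mul, h0, zero_mul, map_one] at this
    exact one_ne_zero this.symm

/-- the sum with weight `1/64`, `p ≡ 1 (mod 4)` -/
theorem minus1 (n : ℕ) (hn : p = 4 * n + 1) (h3 : 3 < p) (h7 : p ≠ 7) (a : ℤ)
    (hA : (a : R p) ^ 2 - (a : R p) + 2 = 0) :
    ∑ k ∈ range p, res2 p (gO p k) ^ 2 * ((res2 p (invI p 4)) ^ 3) ^ k =
      (-1) ^ n * Fl (2 * n) ((a : R p) ^ 4) := by
  have hJ := res2_invI p 4 (nd4 p h3)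
  push_cast at hJ
  set J := res2 p (invI p 4) with hJd
  have hpp := CDE.p_sq p
  have hpm : p = 2 * (2 * n) + 1 := by omega
  have hev : ((-1 : R p)) ^ (2 * n) = 1 := by rw [pow_mul]; norm_num
  have h := exR p 1 n (by omega) (nd2 p h3) (nd4 p h3) (by omega) (zt p (a : R p) J) (J ^ 3)
    (zt_v p _ J hA hJ)
  rw [← hJd] at h
  obtain ⟨f1, f2⟩ := zt_F p hpm h3 h7 a hA J hJ
  obtain ⟨-, k2, τ, k3⟩ := kap p (a : R p) J hA hJ
  set z := zt p (a : R p) J with hz
  set g := (a : R p) ^ 2 * (2 * J) with hg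
  set F := Fl (2 * n) ((a : R p) ^ 4) with hF
  set S := ∑ k ∈ range p, res2 p (gO p k) ^ 2 * (J ^ 3) ^ k with hS
  have key : 2 * (z ^ n * S) = F + (-z) ^ (2 * n) * F := by
    rw [h, mul_sum]
    have e2 : ∀ k ∈ range (2 * n + 1), 2 * (uR p J k * uR p J (2 * n - k) * z ^ k) =
        (dl (2 * n) k : R p) * z ^ k + (dl (2 * n) (2 * n - k) : R p) * z ^ k := by
      intro k hk
      have hk' : k ≤ 2 * n := by simpa [Nat.lt_succ_iff] using hk
      have h8 := uu p hpm (by omega) J hJ k hk'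
      rw [hev, one_mul] at h8
      unfold uR
      linear_combination (z ^ k) * h8
    rw [sum_congr rfl e2, sum_add_distrib]
    have e3 : ∑ k ∈ range (2 * n + 1), (dl (2 * n) (2 * n - k) : R p) * z ^ k =
        ∑ k ∈ range (2 * n + 1), (dl (2 * n) k : R p) * z ^ (2 * n - k) := by
      rw [← sum_range_reflect]
      refine sum_congr rfl fun k hk => ?_
      have hk' : k ≤ 2 * n := by simpa [Nat.lt_succ_iff] using hk
      rw [show 2 * n + 1 - 1 - k = 2 * n - k by omega, Nat.sub_sub_self hk']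
    rw [e3, f2, ← f1]
    rfl
  have hzn : z ^ n = (-1) ^ n * g ^ (p - 1) := by
    have : z = -(g ^ 4) := by rw [← k2, neg_neg]
    rw [this, neg_pow, ← pow_mul]
    congr 1
    exact congrArg (fun k => g ^ k) (by omega)
  have hz2 : (-z) ^ (2 * n) = (g ^ (p - 1)) ^ 2 := by
    rw [k2, ← pow_mul, ← pow_mul]
    exact congrArg (fun k => g ^ k) (by omega)
  rw [hzn, hz2, k3] at key
  have hs : ((-1 : R p)) ^ n * (-1) ^ n = 1 := by rw [← mul_pow]; norm_num
  have hu : IsUnit (2 * (1 + (p : R p) * τ)) := by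
    have h2u : IsUnit (2 : R p) := Ext.unit2 (by omega)
    refine h2u.mul (IsUnit.of_mul_eq_one (1 - (p : R p) * τ) ?_)
    linear_combination (-τ ^ 2) * hpp
  apply hu.mul_left_cancel
  linear_combination (-1) ^ n * key - (2 * (1 + p * τ) * S) * hs + ((-1) ^ n * F * τ ^ 2) * hpp

/-- the sum with weight `1/64`, `p ≡ 3 (mod 4)` -/
theorem minus3 (hpm : p = 2 * m + 1) (hm : Odd m) (n : ℕ) (hn : 3 * p = 4 * n + 1) (h3 : 3 < p)
    (h7 : p ≠ 7) (a : ℤ) (hA : (a : R p) ^ 2 - (a : R p) + 2 = 0) :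
    8 * ∑ k ∈ range p, res2 p (gO p k) ^ 2 * ((res2 p (invI p 4)) ^ 3) ^ k =
      -((-1) ^ n * ((1 - 2 * (a : R p) ^ 4) * Fl m ((a : R p) ^ 4))) := by
  have hJ := res2_invI p 4 (nd4 p h3)
  push_cast at hJ
  set J := res2 p (invI p 4) with hJd
  have hpp := CDE.p_sq p
  have hsm : ((-1 : R p)) ^ m = -1 := hm.neg_one_pow
  have h := exR p 3 n (by omega) (nd2 p h3) (nd4 p h3) (by omega) (zt p (a : R p) J) (J ^ 3)
    (zt_v p _ J hA hJ)
  rw [← hJd] at h
  obtain ⟨f1, f2⟩ := zt_F p hpm h3 h7 a hA J hJ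
  obtain ⟨k1, k2, τ, k3⟩ := kap p (a : R p) J hA hJ
  have hL4 := A4' p (a : R p) hA
  set z := zt p (a : R p) J with hz
  set A := (a : R p) with hAd
  set g := A ^ 2 * (2 * J) with hg
  set gi := (1 - A) ^ 2 * (2 * J) with hgi
  set F := Fl m (A ^ 4) with hF
  set S := ∑ k ∈ range p, res2 p (gO p k) ^ 2 * (J ^ 3) ^ k with hS
  rw [show 2 * n = p + m by omega] at h
  -- splitting the sum
  have hsplit : ∑ k ∈ range (p + m + 1), uR p J k * uR p J (p + m - k) * z ^ k =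
      ∑ k ∈ range (m + 1), uR p J k * uR p J (p + (m - k)) * (z ^ k + z ^ p * z ^ (m - k)) := by
    rw [show p + m + 1 = p + (m + 1) by ring, sum_range_add _ p (m + 1),
      ← sum_range_add_sum_Ico _ (show m + 1 ≤ p by omega)]
    have z1 : ∑ k ∈ Ico (m + 1) p, uR p J k * uR p J (p + m - k) * z ^ k = 0 := by
      refine sum_eq_zero fun k hk => ?_
      rw [mem_Ico] at hk
      have hz : ∀ i, m < i → i < p → ∃ z : R p, uR p J i = p * z := by
        intro i hi hip
        have h5 : CDE.red p (uR p J i) = 0 := by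
          unfold uR
          have h6 := u2_zero p hpm (by omega) i hi hip
          have h7 := congrArg (CDE.red p) h6
          rw [map_pow, map_zero] at h7
          rw [map_mul, pow_eq_zero_iff (two_ne_zero) |>.1 h7, zero_mul]
        obtain ⟨z, hz⟩ := CDE.red_eq_of p (uR p J i) 0 (by rw [h5, map_zero])
        exact ⟨z, by rw [hz, zero_add]⟩
      obtain ⟨x, hz1⟩ := hz k (by omega) hk.2
      obtain ⟨x', hz2⟩ := hz (p + m - k) (by omega) (by omega)
      rw [hz1, hz2]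
      linear_combination (x * x' * z ^ k) * hpp
    have z2 : ∑ j ∈ range (m + 1), uR p J (p + j) * uR p J (p + m - (p + j)) * z ^ (p + j) =
        ∑ k ∈ range (m + 1), uR p J k * uR p J (p + (m - k)) * (z ^ p * z ^ (m - k)) := by
      rw [← sum_range_reflect]
      refine sum_congr rfl fun k hk => ?_
      have hk' : k ≤ m := by simpa [Nat.lt_succ_iff] using hk
      rw [show m + 1 - 1 - k = m - k by omega, show p + m - (p + (m - k)) = k by omega, pow_add z]
      ring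
    rw [z1, z2, add_zero, ← sum_add_distrib]
    refine sum_congr rfl fun k hk => ?_
    have hk' : k ≤ m := by simpa [Nat.lt_succ_iff] using hk
    rw [show p + m - k = p + (m - k) by omega]
    ring
  rw [hsplit] at h
  obtain ⟨f, hf⟩ : ∃ f : ℕ → R p, ∀ k, f k = z ^ k + z ^ p * z ^ (m - k) := ⟨_, fun _ => rfl⟩
  simp only [← hf] at h
  have e3 : ∑ k ∈ range (m + 1), (dl m (m - k) : R p) * z ^ k = (-z) ^ m * F := by
    rw [← f2, ← sum_range_reflect]
    refine sum_congr rfl fun k hk => ?_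
    have hk' : k ≤ m := by simpa [Nat.lt_succ_iff] using hk
    rw [show m + 1 - 1 - k = m - k by omega, Nat.sub_sub_self hk']
  have e4 : ∑ k ∈ range (m + 1), (dl m (m - k) : R p) * z ^ (m - k) = F := by
    rw [← f1]
    unfold Fl
    rw [← sum_range_reflect]
    refine sum_congr rfl fun k hk => ?_
    have hk' : k ≤ m := by simpa [Nat.lt_succ_iff] using hk
    rw [show m + 1 - 1 - k = m - k by omega, Nat.sub_sub_self hk']
  have e5 : ∑ k ∈ range (m + 1), (dl m k : R p) * z ^ k = F := f1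
  have key : 4 * (z ^ n * S) = F - 3 * ((-z) ^ m * F) + z ^ p * ((-z) ^ m * F - 3 * F) := by
    rw [h, mul_sum]
    have e2 : ∀ k ∈ range (m + 1), 4 * (uR p J k * uR p J (p + (m - k)) * f k) =
        (dl m k : R p) * f k - 3 * ((dl m (m - k) : R p) * f k) := by
      intro k hk
      have hk' : k ≤ m := by simpa [Nat.lt_succ_iff] using hk
      have h8 := uu p hpm (by omega) J hJ k hk'
      rw [hsm] at h8
      have h9 := uR_big p hpm (by omega) J hJ k hk'
      have h10 := dl_diff p m hpm k hk'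
      have h11 := dl_R p m hpm k hk'
      have h12 : (p : R p) * (dl m k : R p) = p * cR p m k := by
        rw [h11]
        linear_combination (-(cR p m k * (hR p m - hR p (m - k)))) * hpp
      have e6 : 4 * (uR p J k * uR p J (p + (m - k)) * f k) =
          2 * (uR p J k * (2 * uR p J (p + (m - k))) * f k) := by ring
      rw [e6, h9]
      unfold uR
      set δ := hR p k - hR p (m - k)
      have h13 : (dl m (m - k) : R p) = (dl m k : R p) + p * (cR p m k * δ) := by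
        linear_combination h10
      rw [h13] at h8 ⊢
      linear_combination ((1 + p * δ) * f k) * h8 - 2 * δ * f k * h12 -
        (cR p m k * δ ^ 2 * f k) * hpp
    rw [sum_congr rfl e2, sum_sub_distrib, ← mul_sum]
    simp only [hf, mul_add, sum_add_distrib]
    have e7 : ∀ c : ℕ → R p, ∑ k ∈ range (m + 1), c k * (z ^ p * z ^ (m - k)) =
        z ^ p * ∑ k ∈ range (m + 1), c k * z ^ (m - k) := by
      intro c
      rw [mul_sum]
      exact sum_congr rfl fun k _ => by ring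
    rw [e7, e7, e3, e4, e5, f2]
    ring
  have hzn : z ^ n = (-1) ^ n * ((g ^ (p - 1)) ^ 3 * g ^ 2) := by
    have : z = -(g ^ 4) := by rw [← k2, neg_neg]
    rw [this, neg_pow, ← pow_mul, ← pow_mul, ← pow_add]
    congr 1
    exact congrArg (fun k => g ^ k) (by omega)
  have hzm : (-z) ^ m = (g ^ (p - 1)) ^ 2 := by
    rw [k2, ← pow_mul, ← pow_mul]
    exact congrArg (fun k => g ^ k) (by omega)
  have hzp : z ^ p = -((g ^ (p - 1)) ^ 4 * g ^ 4) := by
    have : z = -(g ^ 4) := by rw [← k2, neg_neg]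
    rw [this, (show Odd p from ⟨m, hpm⟩).neg_pow, ← pow_mul, ← pow_mul, ← pow_add]
    congr 1
    exact congrArg (fun k => g ^ k) (by omega)
  rw [hzn, hzm, hzp, k3] at key
  have hs : ((-1 : R p)) ^ n * (-1) ^ n = 1 := by rw [← mul_pow]; norm_num
  -- the relation after dividing
  have key2 : 2 * (1 + 3 * (p : R p) * τ) * (2 * ((-1) ^ n * g ^ 2 * S)) =
      2 * (1 + 3 * p * τ) * (-(F * (1 - g ^ 4))) := by
    linear_combination key + (-(4 * (-1) ^ n * g ^ 2 * S * (3 * τ ^ 2 + p * τ ^ 3)) +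
      F * (-3 * τ ^ 2 - g ^ 4 * (-3 * τ ^ 2 + 8 * p * τ ^ 3 + 12 * p ^ 2 * τ ^ 4 +
        6 * p ^ 3 * τ ^ 5 + p ^ 4 * τ ^ 6))) * hpp
  have hu : IsUnit (2 * (1 + 3 * (p : R p) * τ)) := by
    have h2u : IsUnit (2 : R p) := Ext.unit2 (by omega)
    refine h2u.mul (IsUnit.of_mul_eq_one (1 - 3 * (p : R p) * τ) ?_)
    linear_combination (-9 * τ ^ 2) * hpp
  have key3 := hu.mul_left_cancel key2
  have hJ2 : 16 * J ^ 2 = 1 := by linear_combination (4 * J + 1) * hJ
  have hgg : gi ^ 2 - g ^ 2 = (1 - 2 * A ^ 4) * (4 * J ^ 2) := by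
    rw [hg, hgi]
    linear_combination 4 * J ^ 2 * hL4
  have k1' : g ^ 2 * gi ^ 2 = 1 := by rw [← mul_pow, k1, one_pow]
  linear_combination (4 * (-1) ^ n * gi ^ 2) * key3 - 8 * S * hs - 8 * S * (-1) ^ n * (-1) ^ n * k1'
    - (4 * (-1) ^ n * F) * hgg - ((-1) ^ n * F * (1 - 2 * A ^ 4)) * hJ2
    + (4 * (-1) ^ n * F * g ^ 2) * k1'

end

end Pool.Agent.Q267.W64
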